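import Mathlib

namespace Pool.Agent.Results.MP_3b44a3_an.Q1

open Filter Topology Quaternion MeasureTheory

/-- Value at `q` of the power series with coefficients `a` (written on the right). -/
noncomputable def ev (a : ℕ → ℍ) (q : ℍ) : ℍ := ∑' n, q ^ n * a n

/-- Coefficients of the conjugate `f^c`. -/
def cj (a : ℕ → ℍ) : ℕ → ℍ := fun n => star (a n)

/-- Coefficients of the star product. -/
noncomputable def sp (a b : ℕ → ℍ) : ℕ → ℍ := fun n => ∑ k ∈ Finset.range (n + 1), a k * b (n - k)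

/-- Membership in the Hardy space `H²`. -/
def H2 (a : ℕ → ℍ) : Prop := Summable fun n => ‖a n‖ ^ 2

/-- The unit sphere of the quaternions. -/
abbrev Sph : Type := Metric.sphere (0 : ℍ) 1

/-- Inner, for a measure `μ` on the unit sphere. -/
def Inner [MeasurableSpace Sph] (μ : Measure Sph) (a : ℕ → ℍ) : Prop :=
  H2 a ∧ (∀ q : ℍ, ‖q‖ < 1 → ‖ev a q‖ ≤ 1) ∧
    ∀ᵐ q : Sph ∂μ, ∃ L : ℍ, ‖L‖ = 1 ∧ Tendsto (fun r : ℝ => ev a (r • (q : ℍ))) (𝓝[<] 1) (𝓝 L)

noncomputable def co (u : ℂ) (n : ℕ) : ℍ := ((u ^ n / n.factorial : ℂ) : ℍ)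

lemma st (z : ℂ) : star (z : ℍ) = ((starRingEnd ℂ z : ℂ) : ℍ) := by ext <;> simp

lemma cjco (u : ℂ) : cj (co u) = co (starRingEnd ℂ u) := by
  funext n; simp [cj, co, st]

lemma nc (z : ℂ) : ‖(z : ℍ)‖ = ‖z‖ := by
  have : ‖(z : ℍ)‖ * ‖(z : ℍ)‖ = ‖z‖ * ‖z‖ := by
    rw [← Quaternion.normSq_eq_norm_mul_self, ← sq, ← Complex.normSq_eq_norm_sq]
    simp [Quaternion.normSq_def', Complex.normSq_apply, sq]
  exact (mul_self_inj (norm_nonneg _) (norm_nonneg _)).1 this

lemma big {u : ℂ} (hu : ‖u‖ = 1) : ∃ q : ℍ, ‖q‖ < 1 ∧ 1 < ‖ev (co u) q‖ := by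
  have u0 : u ≠ 0 := by rintro rfl; simp at hu
  refine ⟨((1 / 2 / u : ℂ) : ℍ), by rw [nc]; simp [hu]; norm_num, ?_⟩
  have e (n : ℕ) : ((1 / 2 / u : ℂ) : ℍ) ^ n * co u n = (((1 / 2 : ℝ) ^ n / n.factorial : ℝ) : ℍ) := by
    have : ((1 / 2 / u : ℂ) : ℍ) ^ n = (((1 / 2 / u) ^ n : ℂ) : ℍ) := (map_pow Quaternion.ofComplex _ _).symm
    rw [this, co, ← Quaternion.coeComplex_mul, ← Quaternion.coeComplex_coe]
    congr 1
    push_cast
    rw [mul_div_assoc', ← mul_pow, div_mul_cancel₀ _ u0]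
  have s := (Real.summable_pow_div_factorial (1 / 2)).hasSum
  have h := ((Algebra.linearMap ℝ ℍ).toContinuousLinearMap.hasSum s).tsum_eq
  have : ev (co u) ((1 / 2 / u : ℂ) : ℍ) = ((∑' n : ℕ, (1 / 2 : ℝ) ^ n / n.factorial : ℝ) : ℍ) := by
    simp only [ev, e]; exact h
  rw [this, Quaternion.norm_coe]
  have := s.summable.sum_le_tsum (Finset.range 2) fun n _ => by positivity
  simp [Finset.sum_range_succ] at this ⊢
  refine lt_of_lt_of_le ?_ (le_abs_self _)
  linarith

theorem result : ∃ a : ℕ → ℍ, H2 a ∧ ∀ [MeasurableSpace Sph] (μ : Measure Sph),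
    Inner μ (sp (cj a) a) ∧ ¬ Inner μ a ∧ ¬ Inner μ (cj a) := by
  have one : sp (cj (co Complex.I)) (co Complex.I) = fun n => if n = 0 then 1 else 0 := by
    funext n
    have h : ∑ k ∈ Finset.range (n + 1), ((-Complex.I) ^ k / k.factorial) *
        (Complex.I ^ (n - k) / (n - k).factorial) = (-Complex.I + Complex.I) ^ n / n.factorial := by
      rw [add_pow, Finset.sum_div]
      refine Finset.sum_congr rfl fun k hk => ?_
      have hk := Nat.lt_succ_iff.1 (Finset.mem_range.1 hk)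
      rw [Nat.cast_choose ℂ hk]
      have := Nat.cast_ne_zero (R := ℂ).2 n.factorial_ne_zero
      field_simp
    have h2 := congrArg Quaternion.ofComplex h
    rw [map_sum] at h2
    rw [cjco]
    simp only [sp, co, ← Quaternion.coeComplex_mul, Complex.conj_I]
    refine h2.trans ?_
    rcases n with _ | n <;> simp
  refine ⟨co Complex.I, ?_, fun μ => ⟨?_, fun h => ?_, fun h => ?_⟩⟩
  · refine .of_nonneg_of_le (fun n => by positivity) (fun n => ?_) (Real.summable_pow_div_factorial 1)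
    have : (1 : ℝ) ≤ n.factorial := by exact_mod_cast n.factorial_pos
    simp only [co, nc, norm_div, norm_pow, Complex.norm_I, one_pow, Complex.norm_natCast]
    rw [div_pow, one_pow]
    gcongr
    nlinarith
  · have ev1 (q : ℍ) : ev (fun n => if n = 0 then 1 else 0) q = 1 := by
      rw [ev, tsum_eq_single 0 fun n h => by simp [h]]; simp
    rw [one]
    refine ⟨summable_of_ne_finset_zero (s := {0}) fun n h => by simp_all, fun q _ => by simp [ev1],
      .of_forall fun q => ⟨1, norm_one, by simp [ev1]⟩⟩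
  · obtain ⟨q, a, b⟩ := big (u := Complex.I) (by simp)
    exact (h.2.1 q a).not_gt b
  · rw [cjco] at h
    obtain ⟨q, a, b⟩ := big (u := starRingEnd ℂ Complex.I) (by simp)
    exact (h.2.1 q a).not_gt b

end Pool.Agent.Results.MP_3b44a3_an.Q1
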